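import Pool.Agent.H73.PHS.Stmts

/-!
Row DUI of board phs: differentiation under the integral sign for the kernel `1 / ζ`.
-/

set_option autoImplicit false

open Set Filter Topology MeasureTheory Metric

namespace Pool.PHS

namespace DUI

variable {n : ℕ} {E : Type} [NormedAddCommGroup E] [NormedSpace ℂ E]

/-- the bound -/
noncomputable def bd (C R : ℝ) : ℂ → ℝ := (ball (0 : ℂ) R).indicator fun ζ => C * ‖ζ‖⁻¹

theorem bd_int (C R : ℝ) : Integrable (bd C R) := by
  unfold bd
  rw [integrable_indicator_iff measurableSet_ball]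
  refine integrableOn_ball_of_norm_le_rpow (C := |C|) (α := 1) ?_ ?_ ?_ ?_
  · rw [Complex.finrank_real_complex]; norm_num
  · rw [Complex.finrank_real_complex]; norm_num
  · refine Eventually.of_forall fun ζ => ?_
    rw [norm_mul, Real.norm_eq_abs, Real.norm_eq_abs, abs_of_nonneg (inv_nonneg.2 (norm_nonneg ζ)),
      Real.rpow_neg (norm_nonneg ζ), Real.rpow_one]
  · exact (measurable_norm.inv.const_mul C).aestronglyMeasurable

theorem far {i : Fin n} {b : Cn n → E} {R : ℝ} (hR : ∀ w, R < ‖w‖ → b w = 0) {r : ℝ} {z : Cn n}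
    (hz : ‖z‖ < r) (ζ : ℂ) (hζ : R + r ≤ ‖ζ‖) : b (z + Pi.single i ζ) = 0 := by
  apply hR
  have h1 : ‖ζ‖ ≤ ‖(z + Pi.single i ζ : Cn n) - z‖ := by
    rw [add_sub_cancel_left]
    have h2 := norm_le_pi_norm (Pi.single i ζ : Cn n) i
    rwa [Pi.single_eq_same] at h2
  have h3 := norm_sub_le (z + Pi.single i ζ : Cn n) z
  linarith

theorem bound {i : Fin n} {b : Cn n → E} {R C : ℝ} (hR : ∀ w, R < ‖w‖ → b w = 0)
    (hC : ∀ w, ‖b w‖ ≤ C) {r : ℝ} {z : Cn n} (hz : ‖z‖ < r) (ζ : ℂ) :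
    ‖ζ⁻¹ • b (z + Pi.single i ζ)‖ ≤ bd C (R + r) ζ := by
  unfold bd
  by_cases h : ζ ∈ ball (0 : ℂ) (R + r)
  · rw [indicator_of_mem h, norm_smul, norm_inv, mul_comm]
    have h1 := hC (z + Pi.single i ζ)
    gcongr
  · rw [indicator_of_notMem h]
    rw [mem_ball_zero_iff, not_lt] at h
    rw [far hR hz ζ h, smul_zero, norm_zero]

theorem cont_P (i : Fin n) (z : Cn n) : Continuous fun ζ : ℂ => (z + Pi.single i ζ : Cn n) := by
  refine continuous_const.add ?_
  exact continuous_single (A := fun _ : Fin n => ℂ) i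

theorem meas {i : Fin n} {b : Cn n → E} (hb : Continuous b) (z : Cn n) :
    AEStronglyMeasurable (fun ζ : ℂ => ζ⁻¹ • b (z + Pi.single i ζ)) volume :=
  (measurable_inv.aestronglyMeasurable).smul (hb.comp (cont_P i z)).aestronglyMeasurable

theorem intg {i : Fin n} {b : Cn n → E} (hb : Continuous b) {R C : ℝ}
    (hR : ∀ w, R < ‖w‖ → b w = 0) (hC : ∀ w, ‖b w‖ ≤ C) (z : Cn n) :
    Integrable (fun ζ : ℂ => ζ⁻¹ • b (z + Pi.single i ζ)) volume :=
  (bd_int C (R + (‖z‖ + 1))).mono' (meas hb z)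
    (Eventually.of_forall fun ζ => bound hR hC (by linarith) ζ)

theorem cont [NormedSpace ℝ E] {i : Fin n} {b : Cn n → E} (hb : Continuous b) {R C : ℝ}
    (hR : ∀ w, R < ‖w‖ → b w = 0) (hC : ∀ w, ‖b w‖ ≤ C) :
    Continuous fun z : Cn n => ∫ ζ : ℂ, ζ⁻¹ • b (z + Pi.single i ζ) := by
  rw [continuous_iff_continuousAt]
  intro z0
  refine continuousAt_of_dominated (bound := bd C (R + (‖z0‖ + 1))) ?_ ?_ (bd_int _ _) ?_
  · exact Eventually.of_forall fun z => meas hb z
  · have h1 : ball z0 1 ∈ 𝓝 z0 := ball_mem_nhds _ one_pos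
    filter_upwards [h1] with z hz
    refine Eventually.of_forall fun ζ => bound hR hC ?_ ζ
    rw [mem_ball, dist_eq_norm] at hz
    have h2 := norm_le_norm_add_norm_sub' z z0
    linarith
  · refine Eventually.of_forall fun ζ => ?_
    refine ContinuousAt.const_smul ?_ _
    exact (hb.comp (continuous_id.add continuous_const)).continuousAt

end DUI

theorem DUI_thm : DUIStmt := by
  intro n i a ha hs
  have hfc : Continuous (fderiv ℝ a) := ha.continuous_fderiv (by norm_num)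
  have hsf : HasCompactSupport (fderiv ℝ a) := hs.fderiv (𝕜 := ℝ)
  -- constants
  obtain ⟨R, hR⟩ := hs.isCompact.isBounded.subset_closedBall 0
  have hR1 : ∀ w, R < ‖w‖ → a w = 0 := by
    intro w hw
    apply image_eq_zero_of_notMem_tsupport
    intro hmem
    have h2 := hR hmem
    rw [mem_closedBall, dist_zero_right] at h2
    linarith
  have hR2 : ∀ w, R < ‖w‖ → fderiv ℝ a w = 0 := by
    intro w hw
    apply image_eq_zero_of_notMem_tsupport
    intro hmem
    have h2 := hR (tsupport_fderiv_subset ℝ hmem)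
    rw [mem_closedBall, dist_zero_right] at h2
    linarith
  obtain ⟨C1, hC1⟩ := hs.exists_bound_of_continuous ha.continuous
  obtain ⟨C2, hC2⟩ := hsf.exists_bound_of_continuous hfc
  have e1 : (fun z : Cn n => ∫ ζ : ℂ, a (z + Pi.single i ζ : Cn n) / ζ) =
      fun z : Cn n => ∫ ζ : ℂ, ζ⁻¹ • a (z + Pi.single i ζ) := by
    funext z
    refine integral_congr_ae (Eventually.of_forall fun ζ => ?_)
    change a _ / ζ = ζ⁻¹ * a _
    rw [div_eq_inv_mul]
  have hder : ∀ z : Cn n, HasFDerivAt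
      (fun z : Cn n => ∫ ζ : ℂ, a (z + Pi.single i ζ : Cn n) / ζ)
      (∫ ζ : ℂ, ζ⁻¹ • fderiv ℝ a (z + Pi.single i ζ)) z := by
    intro z0
    rw [e1]
    have h1 : ball z0 1 ∈ 𝓝 z0 := ball_mem_nhds _ one_pos
    refine hasFDerivAt_integral_of_dominated_of_fderiv_le
      (F' := fun z ζ => ζ⁻¹ • fderiv ℝ a (z + Pi.single i ζ))
      (bound := DUI.bd C2 (R + (‖z0‖ + 1))) h1 ?_ ?_ ?_ ?_ (DUI.bd_int _ _) ?_
    · exact Eventually.of_forall fun z => DUI.meas ha.continuous z
    · exact DUI.intg ha.continuous hR1 hC1 z0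
    · exact DUI.meas hfc z0
    · refine Eventually.of_forall fun ζ z hz => DUI.bound hR2 hC2 ?_ ζ
      rw [mem_ball, dist_eq_norm] at hz
      have h2 := norm_le_norm_add_norm_sub' z z0
      linarith
    · refine Eventually.of_forall fun ζ z _ => ?_
      have h3 : HasFDerivAt a (fderiv ℝ a (z + Pi.single i ζ)) (z + Pi.single i ζ) :=
        (ha.differentiable (by norm_num)).differentiableAt.hasFDerivAt
      have h4 : HasFDerivAt (fun z : Cn n => (z + Pi.single i ζ : Cn n))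
          (ContinuousLinearMap.id ℝ (Cn n)) z := (hasFDerivAt_id z).add_const _
      have h5 := (h3.comp z h4).const_smul ζ⁻¹
      rw [ContinuousLinearMap.comp_id] at h5
      exact h5
  have hfd : fderiv ℝ (fun z : Cn n => ∫ ζ : ℂ, a (z + Pi.single i ζ : Cn n) / ζ) =
      fun z => ∫ ζ : ℂ, ζ⁻¹ • fderiv ℝ a (z + Pi.single i ζ) := by
    funext z
    exact (hder z).fderiv
  refine ⟨?_, ?_⟩
  · rw [contDiff_one_iff_fderiv]
    refine ⟨fun z => (hder z).differentiableAt, ?_⟩
    rw [hfd]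
    exact DUI.cont hfc hR2 hC2
  · intro z v
    rw [hfd]
    change (∫ ζ : ℂ, ζ⁻¹ • fderiv ℝ a (z + Pi.single i ζ)) v = _
    rw [ContinuousLinearMap.integral_apply (DUI.intg hfc hR2 hC2 z)]
    refine integral_congr_ae (Eventually.of_forall fun ζ => ?_)
    change ζ⁻¹ * fderiv ℝ a (z + Pi.single i ζ) v = fderiv ℝ a (z + Pi.single i ζ) v / ζ
    rw [div_eq_inv_mul]

end Pool.PHS
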