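import Pool.Agent.H73.PHS.Stmts

/-!
Row SRJ of board phs: a proper holomorphic self-map of a domain is onto.
-/

set_option autoImplicit false

open Set Filter Topology MeasureTheory Metric

namespace Pool.PHS

theorem SRJ_thm (h1 : OPNStmt) (h2 : NDGStmt) : SRJStmt := by
  intro n D f hD hc hf
  refine h1 n D D f hD hf.hol (h2 n D f hD hc hf) hc.isPreconnected ?_ ?_
  · intro w hw
    obtain ⟨ρ, hρ, hb⟩ := nhds_basis_closedBall.mem_iff.1 (hD.mem_nhds hw)
    refine ⟨ρ, hρ, ?_⟩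
    have h3 : {z | z ∈ D ∧ ‖f z - w‖ ≤ ρ} = D ∩ f ⁻¹' closedBall w ρ := by
      ext z
      rw [mem_inter_iff, mem_preimage, mem_closedBall, dist_eq_norm]
      exact Iff.rfl
    rw [h3]
    exact hf.proper _ hb (isCompact_closedBall w ρ)
  · obtain ⟨z, hz⟩ := hc.nonempty
    exact ⟨f z, hf.maps hz, mem_image_of_mem f hz⟩

end Pool.PHS
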